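import Pool.Agent.Helper69_AEU.Tools

/-!
AEU Part II: modules LAM, CNT, PER, MIX.
-/

namespace Pool.Agent.AEU.H69

open MeasureTheory Complex Filter Topology Pool.Agent.H62T
open Pool.Agent.H16F (Sublin)
open scoped NNReal

/-- unit vector -/
noncomputable def ee (θ : ℝ) : ℂ := Complex.exp (θ * I)

theorem ee_cont : Continuous ee := by unfold ee; fun_prop

theorem lam_def (h : ℂ → ℝ) : lam h = ∫ θ in (0 : ℝ)..(2 * Real.pi), h (ee θ) := rfl

theorem norm_ee (θ : ℝ) : ‖ee θ‖ = 1 := Complex.norm_exp_ofReal_mul_I θ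

theorem ee_per : Function.Periodic ee (2 * Real.pi) := by
  intro θ
  unfold ee
  push_cast
  rw [add_mul, Complex.exp_add, Complex.exp_two_pi_mul_I, mul_one]

theorem ee_add (θ φ : ℝ) : ee (θ + φ) = ee φ * ee θ := by
  unfold ee
  rw [← Complex.exp_add]
  congr 1
  push_cast
  ring

theorem ee_neg (θ : ℝ) : ee (-θ) = (starRingEnd ℂ) (ee θ) := by
  unfold ee
  rw [← Complex.exp_conj, map_mul, Complex.conj_ofReal, Complex.conj_I]
  push_cast
  congr 1
  ring

theorem ee_pi (θ : ℝ) : ee (θ + Real.pi) = -ee θ := by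
  rw [ee_add]
  unfold ee
  rw [Complex.exp_pi_mul_I]
  ring

theorem int_shift (f : ℂ → ℝ) (φ : ℝ) :
    ∫ θ in (0 : ℝ)..(2 * Real.pi), f (ee (θ + φ)) = ∫ θ in (0 : ℝ)..(2 * Real.pi), f (ee θ) := by
  rw [intervalIntegral.integral_comp_add_right (fun θ => f (ee θ)) φ]
  have hp : Function.Periodic (fun θ => f (ee θ)) (2 * Real.pi) := fun θ => by
    simp only [ee_per θ]
  have := hp.intervalIntegral_add_eq φ 0
  rw [zero_add] at this
  rw [zero_add, add_comm (2 * Real.pi) φ]
  exact this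

theorem int_rot (f : ℂ → ℝ) (z : ℂ) (hz : ‖z‖ = 1) :
    ∫ θ in (0 : ℝ)..(2 * Real.pi), f (z * ee θ) = ∫ θ in (0 : ℝ)..(2 * Real.pi), f (ee θ) := by
  have e : z = ee (Complex.arg z) := by
    have := Complex.norm_mul_exp_arg_mul_I z
    rw [hz, Complex.ofReal_one, one_mul] at this
    exact this.symm
  rw [← int_shift f (Complex.arg z)]
  apply intervalIntegral.integral_congr
  intro θ _
  simp only [ee_add]
  rw [← e]

theorem int_conj (f : ℂ → ℝ) :
    ∫ θ in (0 : ℝ)..(2 * Real.pi), f ((starRingEnd ℂ) (ee θ))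
      = ∫ θ in (0 : ℝ)..(2 * Real.pi), f (ee θ) := by
  have h1 : ∫ θ in (0 : ℝ)..(2 * Real.pi), f ((starRingEnd ℂ) (ee θ))
      = ∫ θ in (0 : ℝ)..(2 * Real.pi), f (ee (-θ)) := by
    apply intervalIntegral.integral_congr
    intro θ _
    simp only [ee_neg]
  rw [h1, intervalIntegral.integral_comp_neg (fun θ => f (ee θ))]
  have hp : Function.Periodic (fun θ => f (ee θ)) (2 * Real.pi) := fun θ => by
    simp only [ee_per θ]
  have := hp.intervalIntegral_add_eq (-(2 * Real.pi)) 0
  rw [zero_add, neg_add_cancel] at this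
  rw [neg_zero]
  exact this

theorem ip_ee (θ : ℝ) (x : ℂ) : ip (ee θ) x = Real.cos θ * x.re + Real.sin θ * x.im := by
  unfold ee
  rw [Complex.exp_mul_I, ← Complex.ofReal_cos, ← Complex.ofReal_sin]
  simp only [ip, mul_re, mul_im, add_re, add_im, ofReal_re, ofReal_im, I_re, I_im]
  ring

theorem int_ip (x : ℂ) : ∫ θ in (0 : ℝ)..(2 * Real.pi), ip (ee θ) x = 0 := by
  simp only [ip_ee]
  rw [intervalIntegral.integral_add (Continuous.intervalIntegrable (by fun_prop) _ _)
    (Continuous.intervalIntegrable (by fun_prop) _ _), intervalIntegral.integral_mul_const,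
    intervalIntegral.integral_mul_const, integral_cos, integral_sin]
  simp

theorem ip_cont (x : ℂ) : Continuous fun z => ip z x := by
  unfold ip; fun_prop

section Sub

variable {h h' : ℂ → ℝ}

theorem sub_ii (hh : Sublin h) (a b : ℝ) :
    IntervalIntegrable (fun θ => h (ee θ)) volume a b :=
  ((sub_cont hh).comp ee_cont).intervalIntegrable a b

theorem lam_lin (hh : Sublin h) (hh' : Sublin h') (a b : ℝ) (x : ℂ) :
    lam (fun w => a * h w + b * h' w + ip w x) = a * lam h + b * lam h' := by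
  simp only [lam_def]
  rw [intervalIntegral.integral_add, intervalIntegral.integral_add,
    intervalIntegral.integral_const_mul, intervalIntegral.integral_const_mul, int_ip, add_zero]
  · exact (sub_ii hh _ _).const_mul a
  · exact (sub_ii hh' _ _).const_mul b
  · exact ((sub_ii hh _ _).const_mul a).add ((sub_ii hh' _ _).const_mul b)
  · exact ((ip_cont x).comp ee_cont).intervalIntegrable _ _

theorem lam_mono (hh : Sublin h) (hh' : Sublin h') (hle : ∀ w, h w ≤ h' w) : lam h ≤ lam h' := by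
  simp only [lam_def]
  exact intervalIntegral.integral_mono_on (by linarith [Real.pi_pos]) (sub_ii hh _ _)
    (sub_ii hh' _ _) fun θ _ => hle _

theorem lam_lt (hh : Sublin h) (hh' : Sublin h') (hle : ∀ w, h w ≤ h' w) {w : ℂ}
    (hw : h w < h' w) : lam h < lam h' := by
  have hw0 : w ≠ 0 := by
    rintro rfl
    rw [sub_zero' hh, sub_zero' hh'] at hw
    exact lt_irrefl _ hw
  have hn : 0 < ‖w‖ := norm_pos_iff.2 hw0
  -- the angle of `w`
  obtain ⟨θ, hθ, hwθ⟩ : ∃ θ ∈ Set.Icc (0 : ℝ) (2 * Real.pi), w = (‖w‖ : ℂ) * ee θ := by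
    have h1 := Complex.norm_mul_exp_arg_mul_I w
    have h2 := Complex.arg_le_pi w
    have h3 := Complex.neg_pi_lt_arg w
    have hpi := Real.pi_pos
    rcases le_or_gt 0 (Complex.arg w) with h4 | h4
    · exact ⟨Complex.arg w, ⟨h4, by linarith⟩, h1.symm⟩
    · refine ⟨Complex.arg w + 2 * Real.pi, ⟨by linarith, by linarith⟩, ?_⟩
      rw [ee_per]
      exact h1.symm
  have h5 : h (ee θ) < h' (ee θ) := by
    rw [hwθ, hh.2 _ _ hn.le, hh'.2 _ _ hn.le] at hw
    exact lt_of_mul_lt_mul_left hw hn.le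
  have h6 : 0 < ∫ θ in (0 : ℝ)..(2 * Real.pi), (h' (ee θ) - h (ee θ)) := by
    apply intervalIntegral.integral_pos (by linarith [Real.pi_pos])
    · exact (((sub_cont hh').comp ee_cont).sub ((sub_cont hh).comp ee_cont)).continuousOn
    · intro x _
      exact sub_nonneg.2 (hle _)
    · exact ⟨θ, hθ, sub_pos.2 h5⟩
  rw [intervalIntegral.integral_sub (sub_ii hh' _ _) (sub_ii hh _ _)] at h6
  simp only [lam_def]
  linarith

theorem lam_mb (g : Iso2) (hh : Sublin h) : lam (mb g h) = lam h := by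
  have h1 : lam (mb g h)
      = ∫ θ in (0 : ℝ)..(2 * Real.pi), h (g.linearIsometryEquiv.symm (ee θ)) := by
    have e : ∀ θ, mb g h (ee θ) = h (g.linearIsometryEquiv.symm (ee θ)) + ip (ee θ) (g 0) :=
      fun θ => rfl
    rw [lam_def]
    simp only [e]
    rw [intervalIntegral.integral_add, int_ip, add_zero]
    · exact (((sub_cont hh).comp g.linearIsometryEquiv.symm.continuous).comp
        ee_cont).intervalIntegrable _ _
    · exact ((ip_cont (g 0)).comp ee_cont).intervalIntegrable _ _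
  rw [h1, lam_def]
  obtain ⟨a, ha | ha⟩ := linear_isometry_complex g.linearIsometryEquiv.symm
  · rw [ha]
    have e : ∀ θ, rotation a (ee θ) = (a : ℂ) * ee θ := fun θ => rotation_apply a _
    simp only [e]
    exact int_rot h (a : ℂ) (Circle.norm_coe a)
  · rw [ha]
    have e : ∀ θ, (conjLIE.trans (rotation a)) (ee θ) = (a : ℂ) * (starRingEnd ℂ) (ee θ) :=
      fun θ => by
        rw [LinearIsometryEquiv.trans_apply, rotation_apply, conjLIE_apply]
    simp only [e]
    rw [int_conj fun z => h ((a : ℂ) * z)]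
    exact int_rot h (a : ℂ) (Circle.norm_coe a)

theorem lam_nonneg (hh : Sublin h) : 0 ≤ lam h := by
  obtain ⟨x, hx, -⟩ := exists_contact hh 1
  have h1 : (0 : ℝ) = ∫ θ in (0 : ℝ)..(2 * Real.pi), ip (ee θ) x := (int_ip x).symm
  rw [h1, lam_def]
  exact intervalIntegral.integral_mono_on (by linarith [Real.pi_pos])
    (((ip_cont x).comp ee_cont).intervalIntegrable _ _) (sub_ii hh _ _) fun θ _ => hx _

end Sub

/-- LAM -/
theorem lamS : LamStatement := by
  refine ⟨fun h h' hh hh' a b x => lam_lin hh hh' a b x, fun h h' hh hh' hle =>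
    ⟨lam_mono hh hh' hle, fun hge => ?_⟩, fun h hh => lam_nonneg hh, fun g h hh => lam_mb g hh⟩
  funext w
  rcases (hle w).lt_or_eq with h1 | h1
  · exact absurd (lam_lt hh hh' hle h1) (not_lt.2 hge)
  · exact h1

/-! ### MIX -/

theorem lam_mix {h h' : ℂ → ℝ} (hh : Sublin h) (hh' : Sublin h') (τ : ℝ) :
    lam (mix τ h h') = (1 - τ) * lam h + τ * lam h' := by
  have h1 := lam_lin hh hh' (1 - τ) τ 0
  simp only [ip_zero_right, add_zero] at h1
  exact h1

/-- MIX -/
theorem mixS : MixStatement := by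
  intro P
  refine ⟨fun h₀ h₁ hh₀ hh₁ τ h0 h1 => ⟨sub_mix hh₀ hh₁ h0 h1, lam_mix hh₀ hh₁ τ, ?_, ?_⟩,
    fun h₀ h₁ => ⟨by funext w; simp [mix], by funext w; simp [mix]⟩, ?_⟩
  · intro x hx hx' w
    have a1 := mul_le_mul_of_nonneg_left (hx w) (sub_nonneg.2 h1)
    have a2 := mul_le_mul_of_nonneg_left (hx' w) h0
    simp only [mix]
    linarith
  · intro hf₀ hf₁
    refine ⟨?_, ?_, ?_⟩
    · intro s hs
      have a1 := mul_le_mul_of_nonneg_left (hf₀ s hs) (sub_nonneg.2 h1)
      have a2 := mul_le_mul_of_nonneg_left (hf₁ s hs) h0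
      simp only [mix]
      linarith
    · intro s hs
      rw [Finset.mem_inter, mem_touch, mem_touch] at hs
      rw [mem_touch]
      refine ⟨hs.1.1, ?_⟩
      simp only [mix]
      rw [hs.1.2, hs.2.2]
      ring
    · intro h0' h1'
      ext s
      rw [Finset.mem_inter, mem_touch, mem_touch, mem_touch]
      constructor
      · rintro ⟨hs, he⟩
        simp only [mix] at he
        have a1 := hf₀ s hs
        have a2 := hf₁ s hs
        have a3 : 0 ≤ (1 - τ) * (s.2 - h₀ s.1) := mul_nonneg (by linarith) (by linarith)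
        have a4 : 0 ≤ τ * (s.2 - h₁ s.1) := mul_nonneg h0 (by linarith)
        have a5 : (1 - τ) * (s.2 - h₀ s.1) = 0 := by nlinarith
        have a6 : τ * (s.2 - h₁ s.1) = 0 := by nlinarith
        rcases mul_eq_zero.1 a5 with h | h
        · linarith
        · rcases mul_eq_zero.1 a6 with h' | h'
          · linarith
          · exact ⟨⟨hs, by linarith⟩, hs, by linarith⟩
      · rintro ⟨⟨hs, h2⟩, -, h3⟩
        refine ⟨hs, ?_⟩
        simp only [mix]
        rw [h2, h3]
        ring
  · intro m x hx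
    have hfit : Fits P (hf x) := fun s hs => (hf_le_iff x _ _).2 fun i => hx i s hs
    refine ⟨hfit, fun s => ?_⟩
    rw [mem_touch]
    constructor
    · rintro ⟨hs, he⟩
      obtain ⟨i, hi⟩ := hf_attained x s.1
      exact ⟨hs, i, by rw [← hi, he]⟩
    · rintro ⟨hs, i, hi⟩
      exact ⟨hs, le_antisymm (hfit s hs) (by rw [← hi]; exact le_hf x _ i)⟩

end Pool.Agent.AEU.H69
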