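import Pool.Agent.Helper69_AEU.Lam

/-!
AEU Part II: modules PER, CNT.
-/

namespace Pool.Agent.AEU.H69

open MeasureTheory Complex Filter Topology Pool.Agent.H62T
open Pool.Agent.H16F (Sublin)
open scoped NNReal

theorem lam_width {h : ℂ → ℝ} (hh : Sublin h) :
    lam h = (1 / 2) * ∫ θ in (0 : ℝ)..(2 * Real.pi), (h (ee θ) + h (-ee θ)) := by
  have h1 : ∫ θ in (0 : ℝ)..(2 * Real.pi), h (-ee θ) = lam h := by
    rw [lam_def, ← int_rot h (-1) (by simp)]
    apply intervalIntegral.integral_congr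
    intro θ _
    simp only [neg_mul, one_mul]
  rw [intervalIntegral.integral_add (sub_ii hh _ _), h1, ← lam_def]
  · ring
  · exact (((sub_cont hh).comp continuous_neg).comp ee_cont).intervalIntegrable _ _

theorem int_abs_cos : ∫ θ in (0 : ℝ)..(2 * Real.pi), |Real.cos θ| = 4 := by
  have hper : Function.Periodic (fun θ => |Real.cos θ|) Real.pi := fun θ => by
    simp only [Real.cos_add_pi, abs_neg]
  have hii : ∀ a b : ℝ, IntervalIntegrable (fun θ => |Real.cos θ|) volume a b := fun a b =>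
    (Real.continuous_cos.abs).intervalIntegrable a b
  have h1 : ∀ t : ℝ, ∫ θ in t..(t + Real.pi), |Real.cos θ| = 2 := by
    intro t
    rw [hper.intervalIntegral_add_eq t (-(Real.pi / 2)),
      show -(Real.pi / 2) + Real.pi = Real.pi / 2 by ring]
    have h2 : ∫ θ in (-(Real.pi / 2))..(Real.pi / 2), |Real.cos θ|
        = ∫ θ in (-(Real.pi / 2))..(Real.pi / 2), Real.cos θ := by
      apply intervalIntegral.integral_congr
      intro θ hθ
      rw [Set.uIcc_of_le (by linarith only [Real.pi_pos])] at hθ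
      exact abs_of_nonneg (Real.cos_nonneg_of_mem_Icc hθ)
    rw [h2, integral_cos, Real.sin_neg, Real.sin_pi_div_two]
    norm_num
  have h3 := h1 0
  have h4 := h1 Real.pi
  rw [zero_add] at h3
  rw [← intervalIntegral.integral_add_adjacent_intervals (hii 0 Real.pi) (hii _ _), h3,
    show 2 * Real.pi = Real.pi + Real.pi by ring, h4]
  norm_num

theorem int_abs_ip (d : ℂ) : ∫ θ in (0 : ℝ)..(2 * Real.pi), |ip (ee θ) d| = 4 * ‖d‖ := by
  have e : d = (‖d‖ : ℂ) * ee (Complex.arg d) := (Complex.norm_mul_exp_arg_mul_I d).symm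
  have h1 : ∀ θ, |ip (ee θ) d| = ‖d‖ * |Real.cos (θ - Complex.arg d)| := by
    intro θ
    have h2 : ip (ee θ) d = ‖d‖ * Real.cos (θ - Complex.arg d) := by
      conv_lhs => rw [e]
      rw [ip_smul_right, ip_ee, Real.cos_sub]
      unfold ee
      rw [Complex.exp_ofReal_mul_I_re, Complex.exp_ofReal_mul_I_im]
    rw [h2, abs_mul, abs_of_nonneg (norm_nonneg d)]
  simp only [h1]
  rw [intervalIntegral.integral_const_mul]
  have h3 : ∫ θ in (0 : ℝ)..(2 * Real.pi), |Real.cos (θ - Complex.arg d)| = 4 := by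
    rw [intervalIntegral.integral_comp_sub_right (fun θ => |Real.cos θ|) (Complex.arg d)]
    have hp : Function.Periodic (fun θ => |Real.cos θ|) (2 * Real.pi) := fun θ => by
      simp only [Real.cos_add_two_pi]
    have h4 := hp.intervalIntegral_add_eq (0 - Complex.arg d) 0
    rw [zero_add, int_abs_cos] at h4
    rw [show 2 * Real.pi - Complex.arg d = 0 - Complex.arg d + 2 * Real.pi by ring]
    exact h4
  rw [h3]
  ring

theorem ip_ii (d : ℂ) (a b : ℝ) : IntervalIntegrable (fun θ => |ip (ee θ) d|) volume a b :=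
  (((ip_cont d).comp ee_cont).abs).intervalIntegrable a b

/-! ### Values of `hf` -/

theorem hf2 (a b w : ℂ) : hf ![a, b] w = max (ip w a) (ip w b) := by
  apply le_antisymm
  · rw [hf_le_iff]
    intro i
    fin_cases i
    · exact le_max_left _ _
    · exact le_max_right _ _
  · exact max_le (le_hf ![a, b] w 0) (le_hf ![a, b] w 1)

theorem hf3 (a b c w : ℂ) : hf ![a, b, c] w = max (max (ip w a) (ip w b)) (ip w c) := by
  apply le_antisymm
  · rw [hf_le_iff]
    intro i
    fin_cases i
    · exact (le_max_left _ _).trans (le_max_left _ _)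
    · exact (le_max_right _ _).trans (le_max_left _ _)
    · exact le_max_right _ _
  · exact max_le (max_le (le_hf ![a, b, c] w 0) (le_hf ![a, b, c] w 1)) (le_hf ![a, b, c] w 2)

theorem hf4 (a b c d w : ℂ) : hf ![a, b, c, d] w
    = max (max (ip w a) (ip w b)) (max (ip w c) (ip w d)) := by
  apply le_antisymm
  · rw [hf_le_iff]
    intro i
    fin_cases i
    · exact (le_max_left _ _).trans (le_max_left _ _)
    · exact (le_max_right _ _).trans (le_max_left _ _)
    · exact (le_max_left _ _).trans (le_max_right _ _)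
    · exact (le_max_right _ _).trans (le_max_right _ _)
  · exact max_le (max_le (le_hf ![a, b, c, d] w 0) (le_hf ![a, b, c, d] w 1))
      (max_le (le_hf ![a, b, c, d] w 2) (le_hf ![a, b, c, d] w 3))

theorem w2 (x y : ℝ) : max x y + max (-x) (-y) = |x - y| := by
  rcases le_total x y with h | h
  · rw [max_eq_right h, max_eq_left (neg_le_neg h), abs_of_nonpos (by linarith)]; ring
  · rw [max_eq_left h, max_eq_right (neg_le_neg h), abs_of_nonneg (by linarith)]; ring

theorem w3 (x y z : ℝ) : max (max x y) z + max (max (-x) (-y)) (-z)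
    = (|x - y| + |y - z| + |z - x|) / 2 := by
  rcases le_total x y with h1 | h1 <;> rcases le_total y z with h2 | h2 <;>
    rcases le_total x z with h3 | h3 <;>
    simp only [max_eq_left, max_eq_right, h1, h2, h3, neg_le_neg_iff, abs_of_nonneg,
      abs_of_nonpos, sub_nonneg, sub_nonpos] <;> linarith

theorem w4 (x y z t : ℝ) : max (max x y) (max z t) + max (max (-x) (-y)) (max (-z) (-t))
    ≤ (|x - y| + |y - z| + |z - t| + |t - x|) / 2 := by
  have a1 := le_abs_self (x - y)
  have a2 := neg_abs_le (x - y)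
  have b1 := le_abs_self (y - z)
  have b2 := neg_abs_le (y - z)
  have c1 := le_abs_self (z - t)
  have c2 := neg_abs_le (z - t)
  have d1 := le_abs_self (t - x)
  have d2 := neg_abs_le (t - x)
  rcases max_choice (max x y) (max z t) with h | h <;> rw [h] <;>
  rcases max_choice (max (-x) (-y)) (max (-z) (-t)) with h' | h' <;> rw [h'] <;>
  rcases max_choice x y with h1 | h1 <;> rcases max_choice z t with h2 | h2 <;>
  rcases max_choice (-x) (-y) with h3 | h3 <;> rcases max_choice (-z) (-t) with h4 | h4 <;>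
  simp only [h1, h2, h3, h4] <;> linarith

theorem lam2 (a b : ℂ) : lam (hf ![a, b]) = 2 * ‖a - b‖ := by
  rw [lam_width (sub_hf _)]
  have h1 : ∀ θ, hf ![a, b] (ee θ) + hf ![a, b] (-ee θ) = |ip (ee θ) (a - b)| := by
    intro θ
    rw [hf2, hf2, ip_neg_left, ip_neg_left, w2, ip_sub_right]
  simp only [h1]
  rw [int_abs_ip]
  ring

theorem lam3 (a b c : ℂ) : lam (hf ![a, b, c]) = ‖a - b‖ + ‖b - c‖ + ‖c - a‖ := by
  rw [lam_width (sub_hf _)]
  have h1 : ∀ θ, hf ![a, b, c] (ee θ) + hf ![a, b, c] (-ee θ)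
      = (1 / 2) * (|ip (ee θ) (a - b)| + |ip (ee θ) (b - c)| + |ip (ee θ) (c - a)|) := by
    intro θ
    rw [hf3, hf3, ip_neg_left, ip_neg_left, ip_neg_left, w3, ip_sub_right, ip_sub_right,
      ip_sub_right]
    ring
  simp only [h1]
  rw [intervalIntegral.integral_const_mul, intervalIntegral.integral_add
    ((ip_ii _ _ _).add (ip_ii _ _ _)) (ip_ii _ _ _), intervalIntegral.integral_add (ip_ii _ _ _)
    (ip_ii _ _ _), int_abs_ip, int_abs_ip, int_abs_ip]
  ring

theorem lam4_le (a b c d : ℂ) :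
    lam (hf ![a, b, c, d]) ≤ ‖a - b‖ + ‖b - c‖ + ‖c - d‖ + ‖d - a‖ := by
  rw [lam_width (sub_hf _)]
  have h1 : ∀ θ, hf ![a, b, c, d] (ee θ) + hf ![a, b, c, d] (-ee θ)
      ≤ (1 / 2) * (|ip (ee θ) (a - b)| + |ip (ee θ) (b - c)| + |ip (ee θ) (c - d)|
        + |ip (ee θ) (d - a)|) := by
    intro θ
    rw [hf4, hf4, ip_neg_left, ip_neg_left, ip_neg_left, ip_neg_left, ip_sub_right, ip_sub_right,
      ip_sub_right, ip_sub_right]
    refine (w4 _ _ _ _).trans (le_of_eq ?_)
    ring
  have h2 : ∫ θ in (0 : ℝ)..(2 * Real.pi), (hf ![a, b, c, d] (ee θ) + hf ![a, b, c, d] (-ee θ))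
      ≤ ∫ θ in (0 : ℝ)..(2 * Real.pi), (1 / 2) * (|ip (ee θ) (a - b)| + |ip (ee θ) (b - c)|
        + |ip (ee θ) (c - d)| + |ip (ee θ) (d - a)|) := by
    apply intervalIntegral.integral_mono_on (by linarith [Real.pi_pos])
    · exact (sub_ii (sub_hf _) _ _).add
        ((((sub_cont (sub_hf ![a, b, c, d])).comp continuous_neg).comp ee_cont).intervalIntegrable
          _ _)
    · exact ((((ip_ii _ _ _).add (ip_ii _ _ _)).add (ip_ii _ _ _)).add (ip_ii _ _ _)).const_mul _
    · exact fun θ _ => h1 θ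
  rw [intervalIntegral.integral_const_mul, intervalIntegral.integral_add
    (((ip_ii _ _ _).add (ip_ii _ _ _)).add (ip_ii _ _ _)) (ip_ii _ _ _),
    intervalIntegral.integral_add
    ((ip_ii _ _ _).add (ip_ii _ _ _)) (ip_ii _ _ _), intervalIntegral.integral_add (ip_ii _ _ _)
    (ip_ii _ _ _), int_abs_ip, int_abs_ip, int_abs_ip, int_abs_ip] at h2
  linarith

theorem cross_max {A B C D P : ℝ} (h1 : min A C ≤ P) (h2 : P ≤ max A C) (h3 : min B D ≤ P)
    (h4 : P ≤ max B D) : max (max A B) (max C D) + max A C = max (max A B) C + max (max A C) D := by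
  rcases le_total A C with a | a <;> rcases le_total B D with b | b <;>
  simp only [a, b, min_eq_left, min_eq_right, max_eq_left, max_eq_right] at h1 h2 h3 h4 <;>
  simp only [max_def] <;> split_ifs <;> linarith

theorem seg_between {a c p : ℂ} (hp : p ∈ segment ℝ a c) (w : ℂ) :
    min (ip w a) (ip w c) ≤ ip w p ∧ ip w p ≤ max (ip w a) (ip w c) := by
  obtain ⟨s, t, hs, ht, hst, rfl⟩ := hp
  have e : ip w (s • a + t • c) = s * ip w a + t * ip w c := by
    rw [Complex.real_smul, Complex.real_smul, ip_add_right, ip_smul_right, ip_smul_right]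
  rw [e]
  have m1 := min_le_left (ip w a) (ip w c)
  have m2 := min_le_right (ip w a) (ip w c)
  have m3 := le_max_left (ip w a) (ip w c)
  have m4 := le_max_right (ip w a) (ip w c)
  have hs' : s = 1 - t := by linarith
  subst hs'
  constructor
  · linarith only [mul_le_mul_of_nonneg_left m1 hs, mul_le_mul_of_nonneg_left m2 ht]
  · linarith only [mul_le_mul_of_nonneg_left m3 hs, mul_le_mul_of_nonneg_left m4 ht]

theorem lam4_cross {a b c d p : ℂ} (h1 : p ∈ segment ℝ a c) (h2 : p ∈ segment ℝ b d) :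
    lam (hf ![a, b, c, d]) = ‖a - b‖ + ‖b - c‖ + ‖c - d‖ + ‖d - a‖ := by
  have key : ∀ w, hf ![a, b, c, d] w + hf ![a, c] w = hf ![a, b, c] w + hf ![a, c, d] w := by
    intro w
    obtain ⟨a1, a2⟩ := seg_between h1 w
    obtain ⟨b1, b2⟩ := seg_between h2 w
    rw [hf4, hf2, hf3, hf3]
    exact cross_max a1 a2 b1 b2
  have e1 := lam_lin (sub_hf ![a, b, c, d]) (sub_hf ![a, c]) 1 1 0
  have e2 := lam_lin (sub_hf ![a, b, c]) (sub_hf ![a, c, d]) 1 1 0
  simp only [ip_zero_right, add_zero, one_mul] at e1 e2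
  have e3 : (fun w => hf ![a, b, c, d] w + hf ![a, c] w)
      = fun w => hf ![a, b, c] w + hf ![a, c, d] w := funext key
  rw [e3, e2, lam2, lam3, lam3] at e1
  rw [norm_sub_rev c a] at e1
  have e4 := norm_sub_rev a c
  linarith

/-- PER -/
theorem per : PerStatement :=
  ⟨lam2, lam3, lam4_le, fun _ _ _ _ _ h1 h2 => lam4_cross h1 h2⟩

/-! ### CNT -/

theorem hf_lip {m : ℕ} (x y : Fin (m + 1) → ℂ) (w : ℂ) :
    |hf x w - hf y w| ≤ ‖w‖ * ‖x - y‖ := by
  have key : ∀ x y : Fin (m + 1) → ℂ, hf x w ≤ hf y w + ‖w‖ * ‖x - y‖ := by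
    intro x y
    rw [hf_le_iff]
    intro i
    have h1 := le_hf y w i
    have h2 := ip_le w (x i - y i)
    have h3 : ‖x i - y i‖ ≤ ‖x - y‖ := norm_le_pi_norm (x - y) i
    rw [ip_sub_right] at h2
    have h4 := mul_le_mul_of_nonneg_left h3 (norm_nonneg w)
    linarith
  rw [abs_le]
  have h1 := key x y
  have h2 := key y x
  rw [norm_sub_rev y x] at h2
  constructor <;> linarith

/-- CNT -/
theorem cnt : CntStatement := by
  intro m
  constructor
  · intro w
    have : LipschitzWith ‖w‖₊ fun x : Fin (m + 1) → ℂ => hf x w := by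
      apply LipschitzWith.of_dist_le_mul
      intro x y
      rw [Real.dist_eq, dist_eq_norm, coe_nnnorm]
      exact hf_lip x y w
    exact this.continuous
  · have : LipschitzWith (Real.toNNReal (2 * Real.pi)) fun x : Fin (m + 1) → ℂ => lam (hf x) := by
      apply LipschitzWith.of_dist_le_mul
      intro x y
      rw [Real.dist_eq, dist_eq_norm, Real.coe_toNNReal _ (by linarith [Real.pi_pos]), lam_def,
        lam_def, ← intervalIntegral.integral_sub (sub_ii (sub_hf x) _ _) (sub_ii (sub_hf y) _ _)]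
      have h1 := intervalIntegral.norm_integral_le_of_norm_le_const (a := (0 : ℝ))
        (b := 2 * Real.pi) (f := fun θ => hf x (ee θ) - hf y (ee θ)) (C := ‖x - y‖) (by
          intro θ _
          rw [Real.norm_eq_abs]
          have := hf_lip x y (ee θ)
          rwa [norm_ee, one_mul] at this)
      rw [sub_zero, abs_of_pos (by linarith [Real.pi_pos] : (0:ℝ) < 2 * Real.pi)] at h1
      exact h1.trans (le_of_eq (mul_comm _ _))
    exact this.continuous

end Pool.Agent.AEU.H69
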