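import Pool.Agent.Helper69_AEU.Body

/-!
AEU Part II: modules SUP, HUL, MSY, OPN.
-/

namespace Pool.Agent.AEU.H69

open MeasureTheory Complex Filter Topology Pool.Agent.H62T
open Pool.Agent.H16F (Sublin)
open scoped NNReal

/-- SUP -/
theorem sup : SupStatement := by
  intro h hh
  refine ⟨sub_zero' hh, sub_cont hh, ⟨|h 1| + |h (-1)| + |h I| + |h (-I)|, fun w => ?_⟩,
    exists_contact hh⟩
  have := sub_lip hh w 0
  rwa [sub_zero' hh, sub_zero, sub_zero] at this

/-! ### Finite hulls -/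

section hull

variable {m : ℕ} (x : Fin (m + 1) → ℂ)

theorem hf_le_iff (w : ℂ) (c : ℝ) : hf x w ≤ c ↔ ∀ i, ip w (x i) ≤ c := by
  unfold hf
  constructor
  · intro h i
    exact (le_ciSup (Set.finite_range fun i => ip w (x i)).bddAbove i).trans h
  · intro h
    exact ciSup_le h

theorem le_hf (w : ℂ) (i : Fin (m + 1)) : ip w (x i) ≤ hf x w :=
  (hf_le_iff x w _).1 le_rfl i

theorem hf_attained (w : ℂ) : ∃ i, hf x w = ip w (x i) := by
  obtain ⟨i, hi⟩ := exists_eq_ciSup_of_finite (f := fun i => ip w (x i))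
  exact ⟨i, hi.symm⟩

theorem hf_lt_iff (w : ℂ) (c : ℝ) : hf x w < c ↔ ∀ i, ip w (x i) < c := by
  constructor
  · intro h i
    exact (le_hf x w i).trans_lt h
  · intro h
    obtain ⟨i, hi⟩ := hf_attained x w
    rw [hi]
    exact h i

theorem sub_hf : Sublin (hf x) := by
  constructor
  · intro a b
    rw [hf_le_iff]
    intro i
    rw [ip_add_left]
    exact add_le_add (le_hf x a i) (le_hf x b i)
  · intro c a hc
    apply le_antisymm
    · rw [hf_le_iff]
      intro i
      rw [ip_smul_left]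
      exact mul_le_mul_of_nonneg_left (le_hf x a i) hc
    · obtain ⟨i, hi⟩ := hf_attained x a
      rw [hi, ← ip_smul_left]
      exact le_hf x _ i

end hull

/-- HUL -/
theorem hul : HulStatement := fun _ x =>
  ⟨sub_hf x, fun i w => le_hf x w i, hf_attained x, fun _ hi w => (hf_le_iff x w _).2
    fun i => hi i w, hf_le_iff x, hf_lt_iff x⟩

/-! ### Matching -/

theorem mem_touch {P : Finset HP} {h : ℂ → ℝ} {s : HP} : s ∈ touch P h ↔ s ∈ P ∧ h s.1 = s.2 := by
  classical
  unfold touch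
  rw [Finset.mem_filter]

section

variable (hact : ActStatement)

include hact

theorem mv_inv (g : Iso2) (s : HP) : mv g (mv g⁻¹ s) = s := by
  rw [← hact.1, mul_inv_cancel, hact.2.1]

theorem mv_inv' (g : Iso2) (s : HP) : mv g⁻¹ (mv g s) = s := by
  rw [← hact.1, inv_mul_cancel, hact.2.1]

theorem mb_inv' (g : Iso2) (h : ℂ → ℝ) : mb g⁻¹ (mb g h) = h := by
  rw [← hact.2.2.1, inv_mul_cancel, hact.2.2.2.1]

theorem mv_inj (g : Iso2) : Function.Injective (mv g) := fun s t h => by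
  rw [← mv_inv' hact g s, h, mv_inv' hact]

theorem mb_mv (g : Iso2) (h : ℂ → ℝ) (s : HP) : mb g h (mv g s).1 - (mv g s).2 = h s.1 - s.2 :=
  hact.2.2.2.2.1 g h s

theorem touch_image {P Q : Finset HP} {g : Iso2} {h : ℂ → ℝ} (M : Mat P Q g h) :
    touch Q (mb g h) = (touch P h).image (mv g) := by
  ext t
  rw [Finset.mem_image]
  constructor
  · intro ht
    refine ⟨mv g⁻¹ t, mem_touch.2 ⟨M.mem' t ht, ?_⟩, mv_inv hact g t⟩
    have h1 := mb_mv hact g h (mv g⁻¹ t)
    rw [mv_inv hact, (mem_touch.1 ht).2] at h1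
    linarith
  · rintro ⟨s, hs, rfl⟩
    refine mem_touch.2 ⟨M.mem s hs, ?_⟩
    have h1 := mb_mv hact g h s
    rw [(mem_touch.1 hs).2] at h1
    linarith

/-- MSY -/
theorem msy : MsyStatement := by
  intro P Q g h M
  have ht := touch_image hact M
  refine ⟨⟨M.fits', ?_, M.mem', ?_⟩, ht, ?_⟩
  · rw [mb_inv' hact]; exact M.fits
  · rw [mb_inv' hact, inv_inv]; exact M.mem
  · intro hS
    refine ⟨hact.2.2.2.2.2.2.2.2.2.2.1 g h hS.sub, M.fits', ?_, ?_⟩
    · rw [ht, Finset.card_image_of_injective _ (mv_inj hact g)]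
      exact hS.three
    · rcases hS.sp with ⟨v, ⟨s, t, hv⟩, hin⟩ | h4
      · left
        have hin' : In (g v) (mb g h) := (hact.2.2.2.2.2.2.1 g v h).2 hin
        have hs : ∀ r ∈ P, ip r.1 v = r.2 → mv g r ∈ Q ∧ ip (mv g r).1 (g v) = (mv g r).2 := by
          intro r hr hrv
          have h1 : r ∈ touch P h := mem_touch.2 ⟨hr, le_antisymm (M.fits r hr) (by
            rw [← hrv]; exact hin r.1)⟩
          have h2 := hact.2.2.2.2.2.1 g v r
          exact ⟨M.mem r h1, by linarith⟩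
        refine ⟨g v, ⟨mv g s, mv g t, ⟨fun q hq => (hin' q.1).trans (M.fits' q hq),
          (hs s hv.mem₁ hv.on₁).1, (hs t hv.mem₂ hv.on₂).1, fun h => hv.ne (mv_inj hact g h),
          (hs s hv.mem₁ hv.on₁).2, (hs t hv.mem₂ hv.on₂).2⟩⟩, hin'⟩
      · right
        rw [ht, Finset.card_image_of_injective _ (mv_inj hact g)]
        exact h4

theorem gap (P : Finset HP) (h : ℂ → ℝ) (hf : Fits P h) : ∃ ε > 0, ∀ s ∈ P, s ∉ touch P h →
    h s.1 + ε ≤ s.2 := by
  classical
  have h1 : ∀ s ∈ P.filter fun s => s ∉ touch P h, 0 < s.2 - h s.1 := by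
    intro s hs
    rw [Finset.mem_filter] at hs
    have h2 := hf s hs.1
    rcases h2.lt_or_eq with h3 | h3
    · linarith
    · exact absurd (mem_touch.2 ⟨hs.1, h3⟩) hs.2
  rcases (P.filter fun s => s ∉ touch P h).eq_empty_or_nonempty with h0 | h0
  · refine ⟨1, one_pos, fun s hs hst => ?_⟩
    have : s ∈ P.filter fun s => s ∉ touch P h := Finset.mem_filter.2 ⟨hs, hst⟩
    rw [h0] at this
    exact absurd this (Finset.notMem_empty s)
  · obtain ⟨t, ht, hmin⟩ := Finset.exists_min_image _ (fun s : HP => s.2 - h s.1) h0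
    refine ⟨t.2 - h t.1, h1 t ht, fun s hs hst => ?_⟩
    have := hmin s (Finset.mem_filter.2 ⟨hs, hst⟩)
    linarith

/-- OPN -/
theorem opn : OpnStatement := by
  intro P Q g h M
  obtain ⟨ε, hε, hP⟩ := gap hact P h M.fits
  obtain ⟨ε', hε', hQ⟩ := gap hact Q (mb g h) M.fits'
  refine ⟨min ε ε', lt_min hε hε', fun h' hf hPc hQc => ?_⟩
  have tP : ∀ s ∈ touch P h', s ∈ touch P h := by
    intro s hs
    by_contra hn
    have h1 := hP s (mem_touch.1 hs).1 hn
    have h2 := abs_lt.1 ((hPc s (mem_touch.1 hs).1).trans_le (min_le_left _ _))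
    rw [(mem_touch.1 hs).2] at h2
    linarith [h2.2]
  have tQ : ∀ s ∈ touch Q (mb g h'), s ∈ touch Q (mb g h) := by
    intro s hs
    by_contra hn
    have h1 := hQ s (mem_touch.1 hs).1 hn
    have h2 := abs_lt.1 ((hQc s (mem_touch.1 hs).1).trans_le (min_le_right _ _))
    rw [(mem_touch.1 hs).2] at h2
    linarith [h2.2]
  refine ⟨hf, ?_, fun s hs => M.mem s (tP s hs), fun s hs => M.mem' s (tQ s hs)⟩
  intro t ht
  by_cases htt : t ∈ touch Q (mb g h)
  · have h1 := mb_mv hact g h' (mv g⁻¹ t)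
    rw [mv_inv hact] at h1
    have h2 := hf (mv g⁻¹ t) (M.mem' t htt)
    linarith
  · have h1 := hQ t ht htt
    have h2 := abs_lt.1 ((hQc t ht).trans_le (min_le_right _ _))
    linarith [h2.2]

end

end Pool.Agent.AEU.H69
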