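import Pool.Agent.Helper25_AEU.Stmt

/-!
AEU, toolkit: bodies (sublinear functions) and their perimeters.
-/

namespace Pool.Agent.AEU.H69

open MeasureTheory Complex Filter Topology Pool.Agent.H62T
open Pool.Agent.H16F (Sublin)
open scoped NNReal

/-! ### The bilinear form `ip` -/

theorem ip_add_left (z w x : ℂ) : ip (z + w) x = ip z x + ip w x := by
  simp only [ip, add_re, add_im]; ring

theorem ip_sub_left (z w x : ℂ) : ip (z - w) x = ip z x - ip w x := by
  simp only [ip, sub_re, sub_im]; ring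

theorem ip_add_right (z x y : ℂ) : ip z (x + y) = ip z x + ip z y := by
  simp only [ip, add_re, add_im]; ring

theorem ip_sub_right (z x y : ℂ) : ip z (x - y) = ip z x - ip z y := by
  simp only [ip, sub_re, sub_im]; ring

theorem ip_smul_left (c : ℝ) (z x : ℂ) : ip ((c : ℂ) * z) x = c * ip z x := by
  simp only [ip, mul_re, mul_im, ofReal_re, ofReal_im]; ring

theorem ip_smul_right (c : ℝ) (z x : ℂ) : ip z ((c : ℂ) * x) = c * ip z x := by
  simp only [ip, mul_re, mul_im, ofReal_re, ofReal_im]; ring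

theorem ip_neg_left (z x : ℂ) : ip (-z) x = -ip z x := by
  simp only [ip, neg_re, neg_im]; ring

theorem ip_neg_right (z x : ℂ) : ip z (-x) = -ip z x := by
  simp only [ip, neg_re, neg_im]; ring

theorem ip_zero_left (x : ℂ) : ip 0 x = 0 := by simp [ip]

theorem ip_zero_right (z : ℂ) : ip z 0 = 0 := by simp [ip]

theorem abs_ip_le (z x : ℂ) : |ip z x| ≤ ‖z‖ * ‖x‖ := by
  have h : ip z x = (z * (starRingEnd ℂ) x).re := by
    simp only [ip, mul_re, conj_re, conj_im]; ring
  rw [h]
  calc _ ≤ ‖z * (starRingEnd ℂ) x‖ := Complex.abs_re_le_norm _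
    _ = ‖z‖ * ‖x‖ := by rw [norm_mul, RCLike.norm_conj]

theorem ip_le (z x : ℂ) : ip z x ≤ ‖z‖ * ‖x‖ := (le_abs_self _).trans (abs_ip_le z x)

/-! ### Sublinear functions -/

section Sub

variable {h h' : ℂ → ℝ}

theorem sub_zero' (hh : Sublin h) : h 0 = 0 := by
  have := hh.2 0 0 le_rfl
  simpa using this

theorem sub_neg_le (hh : Sublin h) (w : ℂ) : -h (-w) ≤ h w := by
  have h1 := hh.1 w (-w)
  rw [add_neg_cancel, sub_zero' hh] at h1
  linarith

theorem sub_sub_le (hh : Sublin h) (a b : ℂ) : h a - h b ≤ h (a - b) := by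
  have h1 := hh.1 (a - b) b
  rw [sub_add_cancel] at h1
  linarith

theorem sub_bound (hh : Sublin h) (w : ℂ) :
    h w ≤ (|h 1| + |h (-1)| + |h I| + |h (-I)|) * ‖w‖ := by
  have e : w = ((w.re : ℝ) : ℂ) * 1 + ((w.im : ℝ) : ℂ) * I := by
    rw [mul_one]; exact (Complex.re_add_im w).symm
  have h1 : h (((w.re : ℝ) : ℂ) * 1) ≤ (|h 1| + |h (-1)|) * ‖w‖ := by
    have hw := Complex.abs_re_le_norm w
    rcases le_total 0 w.re with hr | hr
    · rw [hh.2 _ _ hr]
      rw [abs_of_nonneg hr] at hw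
      calc w.re * h 1 ≤ w.re * |h 1| := mul_le_mul_of_nonneg_left (le_abs_self _) hr
        _ ≤ ‖w‖ * |h 1| := mul_le_mul_of_nonneg_right hw (abs_nonneg _)
        _ ≤ _ := by nlinarith [abs_nonneg (h (-1)), norm_nonneg w]
    · have e2 : ((w.re : ℝ) : ℂ) * 1 = ((-w.re : ℝ) : ℂ) * (-1) := by push_cast; ring
      rw [e2, hh.2 _ _ (by linarith)]
      rw [abs_of_nonpos hr] at hw
      calc -w.re * h (-1) ≤ -w.re * |h (-1)| :=
            mul_le_mul_of_nonneg_left (le_abs_self _) (by linarith)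
        _ ≤ ‖w‖ * |h (-1)| := mul_le_mul_of_nonneg_right hw (abs_nonneg _)
        _ ≤ _ := by nlinarith [abs_nonneg (h 1), norm_nonneg w]
  have h2 : h (((w.im : ℝ) : ℂ) * I) ≤ (|h I| + |h (-I)|) * ‖w‖ := by
    have hw := Complex.abs_im_le_norm w
    rcases le_total 0 w.im with hr | hr
    · rw [hh.2 _ _ hr]
      rw [abs_of_nonneg hr] at hw
      calc w.im * h I ≤ w.im * |h I| := mul_le_mul_of_nonneg_left (le_abs_self _) hr
        _ ≤ ‖w‖ * |h I| := mul_le_mul_of_nonneg_right hw (abs_nonneg _)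
        _ ≤ _ := by nlinarith [abs_nonneg (h (-I)), norm_nonneg w]
    · have e2 : ((w.im : ℝ) : ℂ) * I = ((-w.im : ℝ) : ℂ) * (-I) := by push_cast; ring
      rw [e2, hh.2 _ _ (by linarith)]
      rw [abs_of_nonpos hr] at hw
      calc -w.im * h (-I) ≤ -w.im * |h (-I)| :=
            mul_le_mul_of_nonneg_left (le_abs_self _) (by linarith)
        _ ≤ ‖w‖ * |h (-I)| := mul_le_mul_of_nonneg_right hw (abs_nonneg _)
        _ ≤ _ := by nlinarith [abs_nonneg (h I), norm_nonneg w]
  have h3 := hh.1 (((w.re : ℝ) : ℂ) * 1) (((w.im : ℝ) : ℂ) * I)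
  rw [← e] at h3
  linarith

theorem sub_lip (hh : Sublin h) (a b : ℂ) :
    |h a - h b| ≤ (|h 1| + |h (-1)| + |h I| + |h (-I)|) * ‖a - b‖ := by
  rw [abs_le]
  have h1 := (sub_sub_le hh a b).trans (sub_bound hh (a - b))
  have h2 := (sub_sub_le hh b a).trans (sub_bound hh (b - a))
  rw [norm_sub_rev b a] at h2
  constructor <;> linarith

theorem sub_cont (hh : Sublin h) : Continuous h := by
  have : LipschitzWith (Real.toNNReal (|h 1| + |h (-1)| + |h I| + |h (-I)|)) h := by
    apply LipschitzWith.of_dist_le_mul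
    intro a b
    rw [Real.dist_eq, Complex.dist_eq, Real.coe_toNNReal _ (by positivity)]
    exact sub_lip hh a b
  exact this.continuous

theorem sub_mix (hh : Sublin h) (hh' : Sublin h') {τ : ℝ} (h0 : 0 ≤ τ) (h1 : τ ≤ 1) :
    Sublin (mix τ h h') := by
  constructor
  · intro a b
    have e1 := mul_le_mul_of_nonneg_left (hh.1 a b) (sub_nonneg.2 h1)
    have e2 := mul_le_mul_of_nonneg_left (hh'.1 a b) h0
    simp only [mix]
    linarith
  · intro c a hc
    simp only [mix, hh.2 c a hc, hh'.2 c a hc]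
    ring

theorem sub_mb (g : Iso2) (hh : Sublin h) : Sublin (mb g h) := by
  constructor
  · intro a b
    simp only [mb, map_add, ip_add_left]
    linarith [hh.1 (g.linearIsometryEquiv.symm a) (g.linearIsometryEquiv.symm b)]
  · intro c a hc
    have e : g.linearIsometryEquiv.symm ((c : ℂ) * a)
        = (c : ℂ) * g.linearIsometryEquiv.symm a := by
      have := g.linearIsometryEquiv.symm.map_smul c a
      simpa only [Complex.real_smul] using this
    simp only [mb, e, hh.2 c _ hc, ip_smul_left]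
    ring

/-- scaled and translated copies -/
theorem sub_copy (hh : Sublin h) {σ : ℝ} (hσ : 0 ≤ σ) (x : ℂ) :
    Sublin (fun w => σ * h w + ip w x) := by
  constructor
  · intro a b
    simp only [ip_add_left]
    have := mul_le_mul_of_nonneg_left (hh.1 a b) hσ
    linarith
  · intro c a hc
    simp only [hh.2 c _ hc, ip_smul_left]
    ring

theorem exists_contact_aux (hh : Sublin h) {w : ℂ} (hw : w ≠ 0) :
    ∃ x, In x h ∧ ip w x = h w := by
  let f : ℂ →ₗ.[ℝ] ℝ := LinearPMap.mkSpanSingleton' w (h w)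
    (fun c hc => (smul_eq_zero.1 hc).elim (fun hc => by rw [hc, map_zero, zero_smul])
      fun hx' => absurd hx' hw)
  have hf : ∀ x : f.domain, f x ≤ h x := by
    rintro ⟨x, hx⟩
    obtain ⟨c, hc⟩ := Submodule.mem_span_singleton.1 hx
    subst hc
    have h1 : f ⟨c • w, hx⟩ = c * h w := by
      have := LinearPMap.mkSpanSingleton'_apply (σ := RingHom.id ℝ) w (h w)
        (fun c hc => (smul_eq_zero.1 hc).elim (fun hc => by rw [hc, map_zero, zero_smul])
          fun hx' => absurd hx' hw) c hx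
      exact this
    change f ⟨c • w, hx⟩ ≤ h (c • w)
    have e0 : (c • w : ℂ) = (c : ℂ) * w := Complex.real_smul
    rw [h1, e0]
    rcases le_total 0 c with h0 | h0
    · rw [hh.2 c w h0]
    · have e : ((c : ℝ) : ℂ) * w = ((-c : ℝ) : ℂ) * (-w) := by push_cast; ring
      rw [e, hh.2 (-c) (-w) (by linarith)]
      have := sub_neg_le hh w
      nlinarith
  obtain ⟨g, hg1, hg⟩ := exists_extension_of_le_sublinear (E := ℂ) f h
    (fun c hc x => by rw [Complex.real_smul]; exact hh.2 c x hc.le) hh.1 hf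
  have key : ∀ z : ℂ, ip z ⟨g 1, g I⟩ = g z := by
    intro z
    have e : z = z.re • (1 : ℂ) + z.im • I := by
      rw [Complex.real_smul, Complex.real_smul, mul_one]; exact (Complex.re_add_im z).symm
    conv_rhs => rw [e]
    rw [map_add, map_smul, map_smul]
    simp only [ip, smul_eq_mul]
  refine ⟨⟨g 1, g I⟩, fun z => ?_, ?_⟩
  · rw [key]; exact hg z
  · rw [key]
    have hm : w ∈ f.domain := Submodule.mem_span_singleton_self w
    have h3 := hg1 ⟨w, hm⟩
    have h4 : f ⟨w, hm⟩ = h w := LinearPMap.mkSpanSingleton'_apply_self (σ := RingHom.id ℝ) w (h w)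
        (fun c hc => (smul_eq_zero.1 hc).elim (fun hc => by rw [hc, map_zero, zero_smul])
          fun hx' => absurd hx' hw) hm
    rw [h4] at h3
    exact h3

/-- Hahn-Banach in the plane -/
theorem exists_contact (hh : Sublin h) (w : ℂ) : ∃ x, In x h ∧ ip w x = h w := by
  by_cases hw : w = 0
  · obtain ⟨x, hx, -⟩ := exists_contact_aux hh (w := 1) one_ne_zero
    exact ⟨x, hx, by rw [hw, ip_zero_left, sub_zero' hh]⟩
  · exact exists_contact_aux hh hw

end Sub

end Pool.Agent.AEU.H69
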